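import Pool.Agent.Helper60.TG.GoalsR

/-!
# TG, packet CMBCR
-/

set_option autoImplicit false

namespace Pool.Agent.Helper40.TG.CMBCR

open Pool.Agent.Helper42.TG (cmbR)

/-- evaluation at a point as an additive map -/
def ev {R M : Type} [CommRing R] [AddCommGroup M] (a : R →+* AddMonoid.End M) (x : M) : R →+ M where
  toFun ρ := a ρ x
  map_zero' := by rw [map_zero]; rfl
  map_add' ρ σ := by rw [map_add]; rfl

lemma aux {ι τ : Type} [DecidableEq ι] [Fintype τ] {R M : ι → Type}
    [∀ c, CommRing (R c)] [∀ c, AddCommGroup (M c)] (ac : ∀ c, R c →+* AddMonoid.End (M c))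
    (cl : τ → ι) (w : ∀ j, M (cl j)) {c' c : ι} (h : c' = c) (n : τ → R c') (m : R c) :
    ac c m (h ▸ cmbR ac cl w c' n : M c) =
      ∑ j, if h' : cl j = c then ac c (m * (h ▸ n j : R c)) (h' ▸ w j : M c) else 0 := by
  subst h
  unfold cmbR
  simp only
  rw [map_sum]
  apply Finset.sum_congr rfl
  intro j _
  split_ifs with h'
  · rw [map_mul]; rfl
  · rw [map_zero]

theorem t : Pool.Agent.Helper60.TG.CMBCR := by
  intro ι τ τ' _ _ _ R M _ _ ac cl w cl' n c m
  have h1 : cmbR ac cl' (fun i => cmbR ac cl w (cl' i) (n i)) c m =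
      ∑ i, ∑ j, if h' : cl j = c then
        (if h : cl' i = c then ac c (m i * (h ▸ n i j : R c)) (h' ▸ w j : M c) else 0) else 0 := by
    conv_lhs => unfold cmbR
    apply Finset.sum_congr rfl
    intro i _
    by_cases h : cl' i = c
    · simp only [dif_pos h]
      exact aux ac cl w h (n i) (m i)
    · simp [dif_neg h]
  have h2 : cmbR ac cl w c (fun j => ∑ i, if h : cl' i = c then m i * (h ▸ n i j : R c) else 0) =
      ∑ j, ∑ i, if h' : cl j = c then
        (if h : cl' i = c then ac c (m i * (h ▸ n i j : R c)) (h' ▸ w j : M c) else 0) else 0 := by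
    conv_lhs => unfold cmbR
    apply Finset.sum_congr rfl
    intro j _
    by_cases h' : cl j = c
    · simp only [dif_pos h']
      have h3 := map_sum (ev (ac c) (h' ▸ w j : M c))
        (fun i => if h : cl' i = c then m i * (h ▸ n i j : R c) else 0) Finset.univ
      refine h3.trans ?_
      apply Finset.sum_congr rfl
      intro i _
      by_cases h : cl' i = c
      · simp only [dif_pos h]; rfl
      · simp only [dif_neg h, map_zero]
    · simp [dif_neg h']
  rw [h1, h2, Finset.sum_comm]

end Pool.Agent.Helper40.TG.CMBCR
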